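import Pool.Agent.Lib.MP_a01f70_lc.GK.Final

namespace Pool.Agent.Results.MP_a01f70_lc.BoundedExceptions

open Pool.Agent.Lib.MP_a01f70_lc

/-- For `n` without small prime factor, every almost bent exponent is Gold, Kasami, or lies in one
of boundedly many cyclotomic classes of a bounded shape. -/
theorem result :
    ∃ C : ℕ, ∀ n : ℕ, Odd n → (∀ p : ℕ, p.Prime → p ∣ n → C < p) →
      ∃ E : Finset ℕ, E.card ≤ C ∧
        (∀ e ∈ E, ∃ (m τ j : ℕ) (P Q P' Q' : Multiset ℕ), 0 < m ∧ m ≤ C ∧ m * τ ≡ 1 [MOD n] ∧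
          (P + Q + P' + Q').card ≤ C ∧ (∀ s ∈ P + Q + P' + Q', s ≤ C) ∧
          Int.gcd ((P'.map fun s => (2 : ℤ) ^ (τ * s)).sum - (Q'.map fun s => (2 : ℤ) ^ (τ * s)).sum)
            (2 ^ n - 1) = 1 ∧
          (e : ℤ) * ((P'.map fun s => (2 : ℤ) ^ (τ * s)).sum - (Q'.map fun s => (2 : ℤ) ^ (τ * s)).sum)
            ≡ 2 ^ j * ((P.map fun s => (2 : ℤ) ^ (τ * s)).sum - (Q.map fun s => (2 : ℤ) ^ (τ * s)).sum)
            [ZMOD 2 ^ n - 1]) ∧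
        ∀ d : ℕ, 1 ≤ d → d ≤ 2 ^ n - 2 →
          (∀ u w : GaloisField 2 n, u ≠ 0 →
            ((∑ᶠ x : GaloisField 2 n,
                (-1 : ℤ) ^ ((Algebra.trace (ZMod 2) (GaloisField 2 n) (u * x ^ d + w * x)).val)) = 0 ∨
             (∑ᶠ x : GaloisField 2 n,
                (-1 : ℤ) ^ ((Algebra.trace (ZMod 2) (GaloisField 2 n) (u * x ^ d + w * x)).val)) = 2 ^ ((n + 1) / 2) ∨
             (∑ᶠ x : GaloisField 2 n,
                (-1 : ℤ) ^ ((Algebra.trace (ZMod 2) (GaloisField 2 n) (u * x ^ d + w * x)).val)) = -(2 ^ ((n + 1) / 2)))) →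
          (∃ e j : ℕ,
            ((∃ k : ℕ, Nat.Coprime n k ∧ e = 2 ^ k + 1) ∨
             (∃ k : ℕ, Nat.Coprime n k ∧ e = 2 ^ (2 * k) - 2 ^ k + 1)) ∧
            (d ≡ 2 ^ j * e [MOD 2 ^ n - 1] ∨ d * e ≡ 2 ^ j [MOD 2 ^ n - 1])) ∨
          ∃ e ∈ E, ∃ i : ℕ, d ≡ 2 ^ i * e [MOD 2 ^ n - 1] := by
  obtain ⟨C, hC⟩ := Pool.Agent.GK.final
  refine ⟨C, fun n hn hp => ?_⟩
  obtain ⟨E, h1, h2, h3⟩ := hC n hn hp
  refine ⟨E, h1, fun e he => ?_, fun d hd hd' hab => ?_⟩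
  · obtain ⟨m, τ, j, P, Q, P', Q', g1, g2, -, g4, g5, g6, g7, g8⟩ := h2 e he
    exact ⟨m, τ, j, P, Q, P', Q', g1, g2, g4, g5, g6, g7, g8⟩
  · have := Fintype.ofFinite (GaloisField 2 n)
    have hc : Fintype.card (GaloisField 2 n) = 2 ^ n := by
      rw [← Nat.card_eq_fintype_card, GaloisField.card 2 n hn.pos.ne']
    refine h3 (GaloisField 2 n) hc d hd hd' fun u w hu => ?_
    have := hab u w hu
    rw [finsum_eq_sum_of_fintype] at this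
    exact this

end Pool.Agent.Results.MP_a01f70_lc.BoundedExceptions
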