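import Pool.Agent.Lib.MP_a01f70_lc.SP.G

namespace Pool.Agent.Results.MP_a01f70_lc.SparseQuotient

open Pool.Agent.Lib.MP_a01f70_lc

/-- Almost bent exponents are quotients of a sparse signed sum of powers of two by a short
three-term number. -/
theorem result :
    ∀ ε : ℝ, 0 < ε → ∃ C n₀ : ℕ, ∀ n : ℕ, Odd n → n₀ ≤ n → ∀ d : ℕ, 1 ≤ d → d ≤ 2 ^ n - 2 →
      (∀ u w : GaloisField 2 n, u ≠ 0 →
        ((∑ᶠ x : GaloisField 2 n,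
            (-1 : ℤ) ^ ((Algebra.trace (ZMod 2) (GaloisField 2 n) (u * x ^ d + w * x)).val)) = 0 ∨
         (∑ᶠ x : GaloisField 2 n,
            (-1 : ℤ) ^ ((Algebra.trace (ZMod 2) (GaloisField 2 n) (u * x ^ d + w * x)).val)) = 2 ^ ((n + 1) / 2) ∨
         (∑ᶠ x : GaloisField 2 n,
            (-1 : ℤ) ^ ((Algebra.trace (ZMod 2) (GaloisField 2 n) (u * x ^ d + w * x)).val)) = -(2 ^ ((n + 1) / 2)))) →
      ∃ (k₁ k₂ k₃ : ℤ) (s t : ℕ) (P M : Finset ℕ),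
        |k₁| ≤ (n : ℤ) ^ 14 ∧ |k₂| ≤ (n : ℤ) ^ 14 ∧ |k₃| ≤ (n : ℤ) ^ 14 ∧ s < n ∧ t < n ∧
        (Int.gcd (k₁ + k₂ * 2 ^ s + k₃ * 2 ^ t) (2 ^ n - 1) : ℝ) ≤ (2 : ℝ) ^ (ε * n) ∧
        P ⊆ Finset.range n ∧ M ⊆ Finset.range n ∧
        (P.card + M.card : ℝ) ≤ C * √n * Real.log n ∧
        (k₁ + k₂ * 2 ^ s + k₃ * 2 ^ t) * d ≡ ∑ i ∈ P, 2 ^ i - ∑ i ∈ M, 2 ^ i [ZMOD 2 ^ n - 1] := by
  intro ε hε
  obtain ⟨C, n₀, H⟩ := SP.main hε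
  refine ⟨C, n₀, fun n hn hn₀ d h1 h2 hd => ?_⟩
  have := Fintype.ofFinite (GaloisField 2 n)
  have hc : Fintype.card (GaloisField 2 n) = 2 ^ n := by
    rw [← Nat.card_eq_fintype_card, GaloisField.card 2 n hn.pos.ne']
  refine (H n hn hn₀ (GaloisField 2 n) hc {d} ?_).1 d rfl
  rintro _ rfl
  refine ⟨h1, h2, fun u w hu => ?_⟩
  have := hd u w hu
  rw [finsum_eq_sum_of_fintype] at this
  exact this

end Pool.Agent.Results.MP_a01f70_lc.SparseQuotient
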