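import Pool.Agent.Lib.MP_a01f70_lc.SP.G

namespace Pool.Agent.Results.MP_a01f70_lc.SubexpCount

open Pool.Agent.Lib.MP_a01f70_lc

/-- There are subexponentially many almost bent exponents. -/
theorem result :
    ∀ ε : ℝ, 0 < ε → ∃ n₀ : ℕ, ∀ n : ℕ, Odd n → n₀ ≤ n →
      (Set.ncard {d : ℕ | 1 ≤ d ∧ d ≤ 2 ^ n - 2 ∧ ∀ u w : GaloisField 2 n, u ≠ 0 →
        ((∑ᶠ x : GaloisField 2 n,
            (-1 : ℤ) ^ ((Algebra.trace (ZMod 2) (GaloisField 2 n) (u * x ^ d + w * x)).val)) = 0 ∨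
         (∑ᶠ x : GaloisField 2 n,
            (-1 : ℤ) ^ ((Algebra.trace (ZMod 2) (GaloisField 2 n) (u * x ^ d + w * x)).val)) = 2 ^ ((n + 1) / 2) ∨
         (∑ᶠ x : GaloisField 2 n,
            (-1 : ℤ) ^ ((Algebra.trace (ZMod 2) (GaloisField 2 n) (u * x ^ d + w * x)).val)) = -(2 ^ ((n + 1) / 2)))} : ℝ)
        ≤ (2 : ℝ) ^ (ε * n) := by
  intro ε hε
  obtain ⟨C, n₀, H⟩ := SP.main hε
  refine ⟨n₀, fun n hn hn₀ => ?_⟩
  have := Fintype.ofFinite (GaloisField 2 n)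
  have hc : Fintype.card (GaloisField 2 n) = 2 ^ n := by
    rw [← Nat.card_eq_fintype_card, GaloisField.card 2 n hn.pos.ne']
  refine (H n hn hn₀ (GaloisField 2 n) hc _ fun d hd => ?_).2
  refine ⟨hd.1, hd.2.1, fun u w hu => ?_⟩
  have := hd.2.2 u w hu
  rw [finsum_eq_sum_of_fintype] at this
  exact this

end Pool.Agent.Results.MP_a01f70_lc.SubexpCount
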